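import Mathlib

/-!
# Orientations of a graph with a prescribed dichromatic number

If the dichromatic numbers of some orientations of `G` have supremum `κ` (an infinite cardinal),
then some orientation of `G` has dichromatic number exactly `κ`, unless `κ` is weakly inaccessible
and the vertex set carries a `κ`-complete ideal which is `κ`-saturated but, below every set
outside the ideal, not `σ`-saturated for any `σ < κ`.
-/

open Cardinal Set

universe u

namespace Pool.Agent.Results.MP_6967ea_co.Attained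

variable {V : Type u}

/-- `D` is an orientation of `G`: it replaces each edge by exactly one of its two arcs. -/
def IsOrientation (G : SimpleGraph V) (D : V → V → Prop) : Prop :=
  (∀ u v, D u v → G.Adj u v) ∧ (∀ u v, G.Adj u v → D u v ∨ D v u) ∧ ∀ u v, D u v → ¬ D v u

/-- No finite closed directed walk of `D` (equivalently, no directed cycle) lies inside `S`. -/
def Acyclic (D : V → V → Prop) (S : Set V) : Prop :=
  ∀ v, ¬ Relation.TransGen (fun a b => a ∈ S ∧ b ∈ S ∧ D a b) v v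

/-- The dichromatic number: the least number of acyclic classes covering the vertex set. -/
noncomputable def dichromatic (D : V → V → Prop) : Cardinal.{u} :=
  sInf {μ | ∃ (α : Type u) (c : V → α), #α = μ ∧ ∀ a, Acyclic D {v | c v = a}}

/-- Uncountable regular limit cardinals. -/
def WeaklyInaccessible (κ : Cardinal.{u}) : Prop :=
  ℵ₀ < κ ∧ κ.IsRegular ∧ ∀ μ < κ, Order.succ μ < κ

/-- Weakly compact cardinals: strongly inaccessible with the tree property; the latter is stated for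
the trees of `0`-`1` sequences of length less than `κ`, here generated by the restrictions of
`κ` many sequences. -/
def WeaklyCompact (κ : Cardinal.{u}) : Prop :=
  ℵ₀ < κ ∧ κ.IsRegular ∧ (∀ μ < κ, (2 : Cardinal.{u}) ^ μ < κ) ∧
    ∀ f : κ.ord.ToType → κ.ord.ToType → Bool, ∃ b : κ.ord.ToType → Bool,
      ∀ α, ∃ γ, α ≤ γ ∧ ∀ β < α, f γ β = b β

/-- A proper `κ`-complete ideal on `V` containing the singletons, `κ`-saturated, and not
`σ`-saturated below any set outside the ideal, for any `σ < κ`. -/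
structure TightIdeal (κ : Cardinal.{u}) (J : Set (Set V)) : Prop where
  proper : (Set.univ : Set V) ∉ J
  singleton : ∀ v, {v} ∈ J
  subset : ∀ A B, A ⊆ B → B ∈ J → A ∈ J
  complete : ∀ (ι : Type u) (A : ι → Set V), #ι < κ → (∀ i, A i ∈ J) → (⋃ i, A i) ∈ J
  saturated : ∀ (ι : Type u) (A : ι → Set V), (∀ i, A i ∉ J) →
    (Pairwise fun i j => Disjoint (A i) (A j)) → #ι < κ
  tight : ∀ W, W ∉ J → ∀ σ < κ, ∃ (ι : Type u) (A : ι → Set V), σ < #ι ∧
    (∀ i, A i ⊆ W ∧ A i ∉ J) ∧ Pairwise fun i j => Disjoint (A i) (A j)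

/-- `D` restricted to `S` is `μ`-colourable with acyclic classes. -/
def Col (D : V → V → Prop) (S : Set V) (μ : Cardinal.{u}) : Prop :=
  ∃ (α : Type u) (c : V → α), #α ≤ μ ∧ ∀ a, Acyclic D (S ∩ {v | c v = a})

theorem acyclic_mono {D : V → V → Prop} {S T : Set V} (h : S ⊆ T) (hT : Acyclic D T) :
    Acyclic D S :=
  fun v hv => hT v (Relation.TransGen.mono (fun _ _ hab => ⟨h hab.1, h hab.2.1, hab.2.2⟩) v v hv)

theorem acyclic_subsingleton {D : V → V → Prop} (hirr : ∀ v, ¬ D v v) {S : Set V}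
    (hS : S.Subsingleton) : Acyclic D S := by
  intro v hv
  cases hv with
  | single h => exact hirr v h.2.2
  | @tail b _ _ h =>
    have e : b = v := hS h.1 h.2.1
    subst e
    exact hirr _ h.2.2

theorem IsOrientation.irrefl {G : SimpleGraph V} {D : V → V → Prop} (h : IsOrientation G D) :
    ∀ v, ¬ D v v := fun v hv => h.2.2 v v hv hv

theorem Col.mono {D : V → V → Prop} {S T : Set V} {μ ν : Cardinal.{u}} (h : Col D T μ)
    (hS : S ⊆ T) (hμ : μ ≤ ν) : Col D S ν := by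
  obtain ⟨α, c, hα, hc⟩ := h
  exact ⟨α, c, hα.trans hμ, fun a => acyclic_mono (inter_subset_inter_left _ hS) (hc a)⟩

theorem Col.exists_out {D : V → V → Prop} {S : Set V} {μ : Cardinal.{u}} (hirr : ∀ v, ¬ D v v)
    (h : Col D S μ) : ∃ c : V → μ.out, ∀ a, Acyclic D (S ∩ {v | c v = a}) := by
  obtain ⟨α, c, hα, hc⟩ := h
  have h1 : #α ≤ #μ.out := by rwa [mk_out]
  obtain ⟨e⟩ := h1
  refine ⟨fun v => e (c v), fun a => ?_⟩
  by_cases ha : ∃ b, e b = a
  · obtain ⟨b, rfl⟩ := ha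
    refine acyclic_mono ?_ (hc b)
    rintro v ⟨hv, hv'⟩
    exact ⟨hv, e.injective hv'⟩
  · refine acyclic_subsingleton hirr ?_
    rintro v ⟨_, hv'⟩
    exact absurd ⟨_, hv'⟩ ha

theorem col_small {D : V → V → Prop} (hirr : ∀ v, ¬ D v v) {S : Set V} (hS : S.Subsingleton) :
    Col D S 1 :=
  ⟨PUnit, fun _ => PUnit.unit, by simp, fun _ =>
    acyclic_subsingleton hirr (hS.anti inter_subset_left)⟩

theorem dichromatic_le_iff {D : V → V → Prop} (hirr : ∀ v, ¬ D v v) {μ : Cardinal.{u}} :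
    dichromatic D ≤ μ ↔ Col D Set.univ μ := by
  constructor
  · intro h
    have hne : {μ | ∃ (α : Type u) (c : V → α), #α = μ ∧
        ∀ a, Acyclic D {v | c v = a}}.Nonempty := by
      refine ⟨#V, V, id, rfl, fun a => acyclic_subsingleton hirr ?_⟩
      intro x hx y hy
      exact hx.trans hy.symm
    obtain ⟨α, c, hα, hc⟩ := csInf_mem hne
    refine ⟨α, c, hα.le.trans h, fun a => ?_⟩
    rw [univ_inter]
    exact hc a
  · rintro ⟨α, c, hα, hc⟩
    refine le_trans (csInf_le' ⟨α, c, rfl, fun a => ?_⟩) hα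
    have := hc a
    rwa [univ_inter] at this

theorem col_iUnion {D : V → V → Prop} {ι : Type u} [Nonempty ι] {A : ι → Set V}
    {μ : Cardinal.{u}} (h : ∀ i, Col D (A i) μ) : Col D (⋃ i, A i) (#ι * μ) := by
  classical
  choose α c hα hc using h
  have hp : ∀ v, ∃ i, (∃ j, v ∈ A j) → v ∈ A i := by
    intro v
    by_cases hv : ∃ j, v ∈ A j
    · obtain ⟨j, hj⟩ := hv
      exact ⟨j, fun _ => hj⟩
    · exact ⟨Classical.arbitrary ι, fun h' => absurd h' hv⟩
  choose p hp using hp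
  refine ⟨Σ i, α i, fun v => ⟨p v, c (p v) v⟩, ?_, ?_⟩
  · rw [mk_sigma]
    calc Cardinal.sum (fun i => #(α i)) ≤ Cardinal.sum (fun _ : ι => μ) :=
          Cardinal.sum_le_sum _ _ hα
      _ = #ι * μ := by simp
  · rintro ⟨i, a⟩
    refine acyclic_mono ?_ (hc i a)
    rintro v ⟨hv, hv'⟩
    have h1 := hp v (mem_iUnion.1 hv)
    simp only [mem_ofPred_eq, Sigma.mk.injEq] at hv'
    obtain ⟨h2, h3⟩ := hv'
    subst h2
    exact ⟨h1, eq_of_heq h3⟩

/-- Gluing orientations along disjoint blocks. -/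
theorem caseA {G : SimpleGraph V} {κ : Cardinal.{u}} (hκ : κ ≠ 0) {I : Type u} {W : I → Set V}
    (hW : Pairwise fun i j => Disjoint (W i) (W j)) {D : I → V → V → Prop}
    (hD : ∀ i, IsOrientation G (D i)) (hle : ∀ i, Col (D i) (W i) κ)
    (hge : ∀ μ < κ, ∃ i, ¬ Col (D i) (W i) μ) :
    ∃ D', IsOrientation G D' ∧ dichromatic D' = κ := by
  classical
  have hWeq : ∀ {v i j}, v ∈ W i → v ∈ W j → i = j := by
    intro v i j hi hj
    by_contra hne
    exact Set.disjoint_left.1 (hW hne) hi hj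
  obtain ⟨p, hp⟩ : ∃ p : V → Option I, ∀ v i, p v = some i ↔ v ∈ W i := by
    refine ⟨fun v => if h : ∃ i, v ∈ W i then some h.choose else none, fun v i => ?_⟩
    beta_reduce
    by_cases h : ∃ i, v ∈ W i
    · rw [dif_pos h]
      constructor
      · intro h'
        rw [← Option.some_injective _ h']
        exact h.choose_spec
      · intro h'
        rw [hWeq h.choose_spec h']
    · rw [dif_neg h]
      constructor
      · intro h'
        cases h'
      · intro h'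
        exact absurd ⟨i, h'⟩ h
  obtain ⟨β, hβ1, hβ2⟩ : ∃ β : V → Cardinal.{u}, (∀ i u v, u ∈ W i → v ∈ W i → β u = β v) ∧
      ∀ u v, β u = β v → u = v ∨ ∃ i, u ∈ W i ∧ v ∈ W i := by
    refine ⟨fun v => (embeddingToCardinal : (I ⊕ V) ↪ Cardinal.{u})
      ((p v).elim (Sum.inr v) Sum.inl), ?_, ?_⟩
    · intro i u v hu hv
      simp only [(hp u i).2 hu, (hp v i).2 hv, Option.elim_some]
    · intro u v huv
      have h1 := embeddingToCardinal.injective huv
      rcases hu : p u with _ | i <;> rcases hv : p v with _ | j <;> rw [hu, hv] at h1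
      · left
        exact Sum.inr_injective h1
      · cases h1
      · cases h1
      · right
        have h2 : i = j := Sum.inl_injective h1
        subst h2
        exact ⟨i, (hp u i).1 hu, (hp v i).1 hv⟩
  let D' : V → V → Prop := fun u v =>
    G.Adj u v ∧ (β u < β v ∨ ∃ i, u ∈ W i ∧ v ∈ W i ∧ D i u v)
  have hor : IsOrientation G D' := by
    refine ⟨fun u v h => h.1, fun u v huv => ?_, ?_⟩
    · rcases lt_trichotomy (β u) (β v) with h | h | h
      · exact Or.inl ⟨huv, Or.inl h⟩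
      · rcases hβ2 u v h with h | ⟨i, hu, hv⟩
        · exact absurd h huv.ne
        · rcases (hD i).2.1 u v huv with h' | h'
          · exact Or.inl ⟨huv, Or.inr ⟨i, hu, hv, h'⟩⟩
          · exact Or.inr ⟨huv.symm, Or.inr ⟨i, hv, hu, h'⟩⟩
      · exact Or.inr ⟨huv.symm, Or.inl h⟩
    · rintro u v ⟨_, h⟩ ⟨_, h'⟩
      rcases h with h | ⟨i, hu, hv, h⟩ <;> rcases h' with h' | ⟨j, hv', hu', h'⟩
      · exact lt_asymm h h'
      · rw [hβ1 j u v hu' hv'] at h
        exact lt_irrefl _ h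
      · rw [hβ1 i u v hu hv] at h'
        exact lt_irrefl _ h'
      · have e := hWeq hu hu'
        subst e
        exact (hD i).2.2 u v h h'
  have hwalk : ∀ (S : Set V) (a b : V),
      Relation.TransGen (fun a b => a ∈ S ∧ b ∈ S ∧ D' a b) a b →
      β a < β b ∨ ∃ i, a ∈ W i ∧ b ∈ W i ∧
        Relation.TransGen (fun a b => a ∈ S ∩ W i ∧ b ∈ S ∩ W i ∧ D i a b) a b := by
    intro S a b hab
    induction hab with
    | single h =>
      obtain ⟨h1, h2, _, h3 | ⟨i, h3, h4, h5⟩⟩ := h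
      · exact Or.inl h3
      · exact Or.inr ⟨i, h3, h4, Relation.TransGen.single ⟨⟨h1, h3⟩, ⟨h2, h4⟩, h5⟩⟩
    | tail _ h ih =>
      obtain ⟨h1, h2, _, h3 | ⟨i, h3, h4, h5⟩⟩ := h
      · rcases ih with ih | ⟨j, ih1, ih2, _⟩
        · exact Or.inl (ih.trans h3)
        · left
          rwa [hβ1 j _ _ ih1 ih2]
      · rcases ih with ih | ⟨j, ih1, ih2, ih3⟩
        · left
          rwa [← hβ1 i _ _ h3 h4]
        · have e := hWeq h3 ih2
          subst e
          exact Or.inr ⟨i, ih1, h4, ih3.tail ⟨⟨h1, h3⟩, ⟨h2, h4⟩, h5⟩⟩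
  have hA : ∀ S : Set V, (∀ i, Acyclic (D i) (S ∩ W i)) → Acyclic D' S := by
    intro S hS v hv
    rcases hwalk S v v hv with h | ⟨i, _, _, h⟩
    · exact lt_irrefl _ h
    · exact hS i v h
  have hB : ∀ (S : Set V) (i : I), Acyclic D' S → Acyclic (D i) (S ∩ W i) := by
    intro S i hS v hv
    refine hS v (Relation.TransGen.mono ?_ v v hv)
    rintro a b ⟨ha, hb, hab⟩
    exact ⟨ha.1, hb.1, (hD i).1 a b hab, Or.inr ⟨i, ha.2, hb.2, hab⟩⟩
  refine ⟨D', hor, le_antisymm ?_ ?_⟩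
  · rw [dichromatic_le_iff hor.irrefl]
    have h1 : ∀ i, ∃ c : V → κ.out, ∀ a, Acyclic (D i) (W i ∩ {v | c v = a}) :=
      fun i => (hle i).exists_out (hD i).irrefl
    choose c hc using h1
    have h2 : Nonempty κ.out := by
      rw [← mk_ne_zero_iff, mk_out]
      exact hκ
    obtain ⟨d⟩ := h2
    refine ⟨κ.out, fun v => (p v).elim d (fun i => c i v), by rw [mk_out], fun a => ?_⟩
    refine hA _ fun i => acyclic_mono ?_ (hc i a)
    rintro v ⟨⟨_, hv⟩, hv'⟩
    refine ⟨hv', ?_⟩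
    simpa only [mem_ofPred_eq, (hp v i).2 hv', Option.elim_some] using hv
  · by_contra hlt
    rw [not_le] at hlt
    obtain ⟨i, hi⟩ := hge _ hlt
    apply hi
    obtain ⟨α, c, hα, hc⟩ := (dichromatic_le_iff hor.irrefl).1 (le_refl (dichromatic D'))
    refine ⟨α, c, hα, fun a => acyclic_mono ?_ (hB _ i (hc a))⟩
    rintro v ⟨hv, hv'⟩
    exact ⟨⟨mem_univ _, hv'⟩, hv⟩

/-- `W` is small: fewer than `κ` colours suffice for all `E t` simultaneously. -/
def IsSmall (κ : Cardinal.{u}) {Θ : Type u} (E : Θ → V → V → Prop) (W : Set V) : Prop :=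
  ∃ l < κ, ∀ t, Col (E t) W l

theorem IsSmall.mono {κ : Cardinal.{u}} {Θ : Type u} {E : Θ → V → V → Prop} {A B : Set V}
    (h : IsSmall κ E B) (hAB : A ⊆ B) : IsSmall κ E A := by
  obtain ⟨l, hl, h⟩ := h
  exact ⟨l, hl, fun t => (h t).mono hAB le_rfl⟩

theorem uniform {G : SimpleGraph V} {κ : Cardinal.{u}} (hκ : ℵ₀ ≤ κ) {Θ : Type u} [Nonempty Θ]
    {E : Θ → V → V → Prop} (hE : ∀ t, IsOrientation G (E t))
    (hno : ¬ ∃ D, IsOrientation G D ∧ dichromatic D = κ)
    {I : Type u} {A : I → Set V} (hA : Pairwise fun i j => Disjoint (A i) (A j))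
    (hs : ∀ i, IsSmall κ E (A i)) : ∃ l < κ, ∀ i t, Col (E t) (A i) l := by
  classical
  by_contra hcon
  have hcon' : ∀ l < κ, ∃ i t, ¬ Col (E t) (A i) l := by
    intro l hl
    by_contra h
    refine hcon ⟨l, hl, fun i t => ?_⟩
    by_contra h'
    exact h ⟨i, t, h'⟩
  let s : I → Cardinal.{u} := fun i => sInf {l | ∀ t, Col (E t) (A i) l}
  have hs1 : ∀ i t, Col (E t) (A i) (s i) := by
    intro i
    have hne : {l | ∀ t, Col (E t) (A i) l}.Nonempty := by
      obtain ⟨l, _, h⟩ := hs i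
      exact ⟨l, h⟩
    exact csInf_mem hne
  have hsle : ∀ i l, (∀ t, Col (E t) (A i) l) → s i ≤ l := by
    intro i l h
    exact csInf_le' h
  have hs2 : ∀ i, s i < κ := by
    intro i
    obtain ⟨l, hl, h⟩ := hs i
    exact (hsle i l h).trans_lt hl
  have hs3 : ∀ i m, m < s i → ∃ t, ¬ Col (E t) (A i) m := by
    intro i m hm
    by_contra h
    refine absurd (hsle i m fun t => ?_) (not_le.2 hm)
    by_contra h'
    exact h ⟨t, h'⟩
  have hs4 : ∀ l < κ, ∃ i, l < s i := by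
    intro l hl
    obtain ⟨i, t, h⟩ := hcon' l hl
    refine ⟨i, ?_⟩
    by_contra h'
    exact h ((hs1 i t).mono subset_rfl (not_lt.1 h'))
  have key : ∀ i, ∃ t, ∀ j, s j < s i → (∀ k, s k < s i → s k ≤ s j) →
      ¬ Col (E t) (A i) (s j) := by
    intro i
    by_cases h : ∃ j, s j < s i ∧ ∀ k, s k < s i → s k ≤ s j
    · obtain ⟨j, hj, hj'⟩ := h
      obtain ⟨t, ht⟩ := hs3 i (s j) hj
      refine ⟨t, fun j' h1 h2 => ?_⟩
      rwa [le_antisymm (hj' j' h1) (h2 j hj)]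
    · exact ⟨Classical.arbitrary Θ, fun j h1 h2 => absurd ⟨j, h1, h2⟩ h⟩
  choose ξ hξ using key
  refine hno (caseA (ne_of_gt (aleph0_pos.trans_le hκ)) hA (fun i => hE (ξ i))
    (fun i => (hs1 i _).mono subset_rfl (hs2 i).le) ?_)
  intro μ hμ
  obtain ⟨i, hi⟩ := hs4 μ hμ
  have hne : {c | ∃ j, s j = c ∧ s i < c}.Nonempty := by
    obtain ⟨j, hj⟩ := hs4 (s i) (hs2 i)
    exact ⟨s j, j, rfl, hj⟩
  obtain ⟨j, hj, hij⟩ := csInf_mem hne
  rw [← hj] at hij
  refine ⟨j, fun hc => hξ j i hij ?_ (hc.mono subset_rfl hi.le)⟩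
  intro k hk
  by_contra h
  rw [not_le] at h
  have h1 : sInf {c | ∃ j, s j = c ∧ s i < c} ≤ s k := csInf_le' ⟨k, rfl, h⟩
  rw [← hj] at h1
  exact absurd hk (not_lt.2 h1)

theorem disjointify {I C : Type*} [LinearOrder C] [WellFoundedLT C] {f : I → C}
    (hf : Function.Injective f) (A : I → Set V) :
    ∃ B : I → Set V, (∀ i, B i ⊆ A i) ∧ (Pairwise fun i j => Disjoint (B i) (B j)) ∧
      ∀ i v, v ∈ A i → ∃ j, f j ≤ f i ∧ v ∈ B j := by
  refine ⟨fun i => {v | v ∈ A i ∧ ∀ j, f j < f i → v ∉ A j}, fun i v hv => hv.1, ?_, ?_⟩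
  · intro i j hij
    rw [Set.disjoint_left]
    rintro v ⟨h1, h2⟩ ⟨h3, h4⟩
    rcases lt_trichotomy (f i) (f j) with h | h | h
    · exact h4 i h h1
    · exact hij (hf h)
    · exact h2 j h h3
  · intro i v hv
    have wf : WellFounded (fun a b : I => f a < f b) := InvImage.wf f wellFounded_lt
    obtain ⟨j, hj, hmin⟩ := wf.has_min {j | v ∈ A j} ⟨i, hv⟩
    refine ⟨j, not_lt.1 (hmin i hv), hj, fun k hk hvk => hmin k hvk hk⟩

theorem small_iUnion {G : SimpleGraph V} {κ : Cardinal.{u}} (hκ : ℵ₀ ≤ κ) {Θ : Type u}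
    [Nonempty Θ] {E : Θ → V → V → Prop} (hE : ∀ t, IsOrientation G (E t))
    (hno : ¬ ∃ D, IsOrientation G D ∧ dichromatic D = κ)
    {I : Type u} {A : I → Set V} (hI : #I < κ) (hs : ∀ i, IsSmall κ E (A i)) :
    IsSmall κ E (⋃ i, A i) := by
  rcases isEmpty_or_nonempty I with hI' | hI'
  · refine ⟨1, one_lt_aleph0.trans_le hκ, fun t => col_small (hE t).irrefl ?_⟩
    rw [iUnion_of_empty]
    exact subsingleton_empty
  · obtain ⟨B, hB1, hB2, hB3⟩ := disjointify
      (embeddingToCardinal : I ↪ Cardinal.{u}).injective A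
    obtain ⟨l, hl, h⟩ := uniform hκ hE hno hB2 (fun i => (hs i).mono (hB1 i))
    refine ⟨#I * l, mul_lt_of_lt hκ hI hl, fun t => ?_⟩
    refine (col_iUnion fun i => h i t).mono ?_ le_rfl
    intro v hv
    obtain ⟨i, hi⟩ := mem_iUnion.1 hv
    obtain ⟨j, _, hj⟩ := hB3 i v hi
    exact mem_iUnion.2 ⟨j, hj⟩

theorem no_big_family {G : SimpleGraph V} {κ : Cardinal.{u}} (hκ : ℵ₀ ≤ κ) {Θ Ξ : Type u}
    {E : Ξ → V → V → Prop} (hE : ∀ t, IsOrientation G (E t))
    (hno : ¬ ∃ D, IsOrientation G D ∧ dichromatic D = κ)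
    (hcol : ∀ t, ∃ μ < κ, Col (E t) Set.univ μ) {g : Θ → Cardinal.{u}} (hg : ∀ t, g t < κ)
    (hgc : ∀ μ < κ, ∃ t, μ ≤ g t) {I : Type u} {N : I → Set V}
    (hN : Pairwise fun i j => Disjoint (N i) (N j)) (hns : ∀ i, ¬ IsSmall κ E (N i)) :
    #I < #Θ := by
  by_contra h
  obtain ⟨e⟩ := not_lt.1 h
  have h1 : ∀ t, ∃ s, ¬ Col (E s) (N (e t)) (g t) := by
    intro t
    by_contra h'
    refine hns (e t) ⟨g t, hg t, fun s => ?_⟩
    by_contra h''
    exact h' ⟨s, h''⟩
  choose ξ hξ using h1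
  refine hno (caseA (W := fun t => N (e t)) (ne_of_gt (aleph0_pos.trans_le hκ)) ?_
    (fun t => hE (ξ t)) ?_ ?_)
  · intro t t' htt
    exact hN (fun h' => htt (e.injective h'))
  · intro t
    obtain ⟨μ, hμ, hc⟩ := hcol (ξ t)
    exact hc.mono (subset_univ _) hμ.le
  · intro μ hμ
    obtain ⟨t, ht⟩ := hgc μ hμ
    exact ⟨t, fun hc => hξ t (hc.mono subset_rfl ht)⟩

theorem bounded {G : SimpleGraph V} {κ : Cardinal.{u}} (hκ : ℵ₀ ≤ κ) {Θ Ξ : Type u} [Nonempty Ξ]
    [LinearOrder Θ] [WellFoundedLT Θ] (hinit : ∀ t : Θ, #{r : Θ // r ≤ t} < κ)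
    {E : Ξ → V → V → Prop} (hE : ∀ t, IsOrientation G (E t))
    (hno : ¬ ∃ D, IsOrientation G D ∧ dichromatic D = κ)
    {g : Θ → Cardinal.{u}} (hg : ∀ t, g t < κ)
    (hgc : ∀ μ < κ, ∃ t, μ ≤ g t) :
    ∃ l < κ, ∀ A, IsSmall κ E A → ∀ t, Col (E t) A l := by
  by_contra hcon
  have h1 : ∀ t : Θ, ∃ (A : Set V) (s : Ξ), IsSmall κ E A ∧
      ¬ Col (E s) A (#{r : Θ // r ≤ t} * g t) := by
    intro t
    by_contra h
    refine hcon ⟨_, mul_lt_of_lt hκ (hinit t) (hg t), fun A hA s => ?_⟩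
    by_contra h'
    exact h ⟨A, s, hA, h'⟩
  choose A s hA hAs using h1
  obtain ⟨B, hB1, hB2, hB3⟩ := disjointify (f := fun t : Θ => t) (fun _ _ h => h) A
  obtain ⟨l, hl, h⟩ := uniform hκ hE hno hB2 (fun i => (hA i).mono (hB1 i))
  obtain ⟨t, ht⟩ := hgc l hl
  apply hAs t
  have : Nonempty {r : Θ // r ≤ t} := ⟨⟨t, le_rfl⟩⟩
  refine (col_iUnion fun r : {r : Θ // r ≤ t} => h r.1 (s t)).mono ?_ (mul_le_mul_right ht _)
  intro v hv
  obtain ⟨j, hj, hvj⟩ := hB3 t v hv
  exact mem_iUnion.2 ⟨⟨j, hj⟩, hvj⟩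

theorem many {G : SimpleGraph V} {κ : Cardinal.{u}} (hκ : ℵ₀ ≤ κ) {Θ Ξ : Type u} [Nonempty Ξ]
    [LinearOrder Θ] [WellFoundedLT Θ] (hinit : ∀ t : Θ, #{r : Θ // r ≤ t} < κ)
    {E : Ξ → V → V → Prop} (hE : ∀ t, IsOrientation G (E t))
    (hno : ¬ ∃ D, IsOrientation G D ∧ dichromatic D = κ)
    (hcol : ∀ t, ∃ μ < κ, Col (E t) Set.univ μ)
    {g : Θ → Cardinal.{u}} (hg : ∀ t, g t < κ)
    (hgc : ∀ μ < κ, ∃ t, μ ≤ g t) {W : Set V} (hW : ¬ IsSmall κ E W) {σ : Cardinal.{u}}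
    (hσ : σ < κ) :
    ∃ (ι : Type u) (A : ι → Set V), σ < #ι ∧
    (∀ i, A i ⊆ W ∧ ¬ IsSmall κ E (A i)) ∧ Pairwise fun i j => Disjoint (A i) (A j) := by
  classical
  obtain ⟨l, hl, hbd⟩ := bounded hκ hinit hE hno hg hgc
  obtain ⟨t, ht⟩ : ∃ t, ¬ Col (E t) W (l + σ) := by
    by_contra h
    refine hW ⟨l + σ, add_lt_of_lt hκ hl hσ, fun t => ?_⟩
    by_contra h'
    exact h ⟨t, h'⟩
  obtain ⟨μ, hμ, α, c, hα, hc⟩ := hcol t
  refine ⟨{a : α // ¬ IsSmall κ E (W ∩ {v | c v = a})}, fun a => W ∩ {v | c v = a.1}, ?_,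
    fun a => ⟨inter_subset_left, a.2⟩, ?_⟩
  · by_contra hle
    rw [not_lt] at hle
    apply ht
    have hN : IsSmall κ E (⋃ a : {a : α // IsSmall κ E (W ∩ {v | c v = a})},
        W ∩ {v | c v = a.1}) :=
      small_iUnion hκ hE hno
        (((mk_subtype_le _).trans hα).trans_lt hμ) (fun a => a.2)
    obtain ⟨γ, c', hγ, hc'⟩ := hbd _ hN t
    refine ⟨γ ⊕ {a : α // ¬ IsSmall κ E (W ∩ {v | c v = a})}, fun v =>
      if h : ¬ IsSmall κ E (W ∩ {w | c w = c v}) then Sum.inr ⟨c v, h⟩ else Sum.inl (c' v),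
      ?_, ?_⟩
    · rw [mk_sum, lift_id, lift_id]
      exact add_le_add hγ hle
    · rintro (b | b)
      · refine acyclic_mono ?_ (hc' b)
        rintro v ⟨hv, hv'⟩
        rw [mem_ofPred_eq] at hv'
        beta_reduce at hv'
        by_cases h : ¬ IsSmall κ E (W ∩ {w | c w = c v})
        · rw [dif_pos h] at hv'
          cases hv'
        · rw [dif_neg h] at hv'
          refine ⟨mem_iUnion.2 ⟨⟨c v, not_not.1 h⟩, hv, rfl⟩, Sum.inl_injective hv'⟩
      · refine acyclic_mono ?_ (hc b.1)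
        rintro v ⟨hv, hv'⟩
        rw [mem_ofPred_eq] at hv'
        beta_reduce at hv'
        by_cases h : ¬ IsSmall κ E (W ∩ {w | c w = c v})
        · rw [dif_pos h] at hv'
          refine ⟨mem_univ _, ?_⟩
          have := Sum.inr_injective hv'
          rw [← this]
          rfl
        · rw [dif_neg h] at hv'
          cases hv'
  · intro a b hab
    rw [Set.disjoint_left]
    rintro v ⟨_, h1⟩ ⟨_, h2⟩
    exact hab (Subtype.ext (h1.symm.trans h2))

theorem no_tight {κ : Cardinal.{u}} (hwc : WeaklyCompact κ) {J : Set (Set V)}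
    (hJ : TightIdeal κ J) : False := by
  classical
  obtain ⟨hκ, hreg, hpow, htree⟩ := hwc
  have hempty : (∅ : Set V) ∈ J := by
    have h := hJ.complete PEmpty (fun _ => ∅) (by
      rw [mk_pempty]; exact aleph0_pos.trans hκ) (fun i => i.elim)
    rwa [iUnion_of_empty] at h
  have hsp : ∀ W : Set V, ∃ X : Set V, W ∉ J → X ⊆ W ∧ X ∉ J ∧ W \ X ∉ J := by
    intro W
    by_cases hW : W ∈ J
    · exact ⟨∅, fun h => absurd hW h⟩
    · obtain ⟨ι, A, hι, hA, hdis⟩ := hJ.tight W hW 1 (one_lt_aleph0.trans hκ)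
      obtain ⟨i, j, hij⟩ := (one_lt_iff_nontrivial.1 hι).exists_pair_ne
      refine ⟨A i, fun _ => ⟨(hA i).1, (hA i).2, fun h => (hA j).2 (hJ.subset _ _ ?_ h)⟩⟩
      intro v hv
      exact ⟨(hA j).1 hv, fun hv' => Set.disjoint_left.1 (hdis hij) hv' hv⟩
  choose sp hsp using hsp
  let K : Type u := κ.ord.ToType
  obtain ⟨c, hc⟩ : ∃ c : K → V → Bool, ∀ (α : K) (v : V),
      c α v = decide (v ∈ sp {w | ∀ β < α, c β w = c β v}) := by
    refine ⟨(wellFounded_lt (α := K)).fix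
      (fun α ih v => decide (v ∈ sp {w | ∀ (β : K) (h : β < α), ih β h w = ih β h v})), ?_⟩
    intro α v
    rw [WellFounded.fix_eq]
  let cls : K → V → Set V := fun α v => {w | ∀ β < α, c β w = c β v}
  have hcls : ∀ (α : K) (v w : V), w ∈ cls α v → cls α w = cls α v := by
    intro α v w hw
    ext x
    constructor
    · intro hx β hβ
      exact (hx β hβ).trans (hw β hβ)
    · intro hx β hβ
      exact (hx β hβ).trans (hw β hβ).symm
  have hanti : ∀ (α α' : K) (v : V), α ≤ α' → cls α' v ⊆ cls α v :=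
    fun α α' v h w hw β hβ => hw β (hβ.trans_le h)
  have hother : ∀ (α : K) (v : V), cls α v ∉ J →
      {w | w ∈ cls α v ∧ c α w ≠ c α v} ∉ J := by
    intro α v hv
    obtain ⟨h1, h2, h3⟩ := hsp _ hv
    have hcw : ∀ w ∈ cls α v, c α w = decide (w ∈ sp (cls α v)) := by
      intro w hw
      have h := hc α w
      have e : {x | ∀ β < α, c β x = c β w} = cls α v := hcls α v w hw
      rwa [e] at h
    have hvv : v ∈ cls α v := fun β _ => rfl
    by_cases hvs : v ∈ sp (cls α v)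
    · intro hbad
      refine h3 (hJ.subset _ _ ?_ hbad)
      rintro w ⟨hw, hw'⟩
      refine ⟨hw, ?_⟩
      rw [hcw w hw, hcw v hvv]
      simp [hvs, hw']
    · intro hbad
      refine h2 (hJ.subset _ _ ?_ hbad)
      intro w hw
      refine ⟨h1 hw, ?_⟩
      rw [hcw w (h1 hw), hcw v hvv]
      simp [hvs, hw]
  have hex : ∀ γ : K, ∃ v, cls γ v ∉ J := by
    intro γ
    by_contra hcon
    have hcon' : ∀ v, cls γ v ∈ J := by
      intro v
      by_contra h
      exact hcon ⟨v, h⟩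
    apply hJ.proper
    have h1 : #(Set.Iio γ → Bool) < κ := by
      have h2 : #(Set.Iio γ) < κ := by
        have h3 := mk_Iio_lt γ (by simp [K])
        simpa [K] using h3
      calc #(Set.Iio γ → Bool) = 2 ^ #(Set.Iio γ) := by simp
        _ < κ := hpow _ h2
    have h2 := hJ.complete (Set.Iio γ → Bool)
      (fun h => {w | ∀ β : Set.Iio γ, c β.1 w = h β}) h1 (fun h => by
        by_cases hne : ∃ w, ∀ β : Set.Iio γ, c β.1 w = h β
        · obtain ⟨w, hw⟩ := hne
          refine hJ.subset _ _ ?_ (hcon' w)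
          intro x hx β hβ
          exact (hx ⟨β, hβ⟩).trans (hw ⟨β, hβ⟩).symm
        · refine hJ.subset _ _ ?_ hempty
          intro x hx
          exact absurd ⟨x, hx⟩ hne)
    refine hJ.subset _ _ ?_ h2
    intro w _
    exact mem_iUnion.2 ⟨fun β => c β.1 w, fun β => rfl⟩
  choose vv hvv using hex
  obtain ⟨b, hb⟩ := htree (fun γ β => c β (vv γ))
  have hnomax : ∀ α : K, ∃ α', α < α' := by
    have := Cardinal.noMaxOrder hκ.le
    exact fun α => exists_gt α
  let A : K → Set V := fun α => {w | (∀ β < α, c β w = b β) ∧ c α w ≠ b α}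
  have hA : ∀ α, A α ∉ J := by
    intro α
    obtain ⟨α', hα'⟩ := hnomax α
    obtain ⟨γ, hγ, hγb⟩ := hb α'
    have h1 : cls α (vv γ) ∉ J := fun h =>
      hvv γ (hJ.subset _ _ (hanti α γ (vv γ) (hα'.le.trans hγ)) h)
    refine fun h => hother α (vv γ) h1 (hJ.subset _ _ ?_ h)
    rintro w ⟨hw, hw'⟩
    refine ⟨fun β hβ => (hw β hβ).trans (hγb β (hβ.trans hα')), ?_⟩
    rw [← hγb α hα']
    exact hw'
  have hdis : ∀ α α', α < α' → Disjoint (A α) (A α') := by
    intro α α' h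
    rw [Set.disjoint_left]
    rintro w ⟨_, h1⟩ ⟨h2, _⟩
    exact h1 (h2 α h)
  have hlt := hJ.saturated K A hA (fun α α' hne => by
    rcases lt_or_gt_of_ne hne with h | h
    · exact hdis _ _ h
    · exact (hdis _ _ h).symm)
  simp [K] at hlt

theorem result (G : SimpleGraph V) (κ : Cardinal.{u}) (hκ : ℵ₀ ≤ κ)
    (F : Set (V → V → Prop)) (hF : ∀ D ∈ F, IsOrientation G D)
    (hsup : IsLUB (dichromatic '' F) κ) :
    (∃ D, IsOrientation G D ∧ dichromatic D = κ) ∨
      (WeaklyInaccessible κ ∧ ¬ WeaklyCompact κ ∧ ∃ J : Set (Set V), TightIdeal κ J ∧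
        ∃ l < κ, ∀ D, IsOrientation G D → dichromatic D < κ → ∀ W ∈ J, Col D W l) := by
  classical
  by_cases hno : ∃ D, IsOrientation G D ∧ dichromatic D = κ
  · exact Or.inl hno
  right
  have hval : ∀ D ∈ F, dichromatic D < κ := fun D hD =>
    lt_of_le_of_ne (hsup.1 ⟨D, hD, rfl⟩) fun h => hno ⟨D, hF D hD, h⟩
  have hcof : ∀ μ < κ, ∃ D ∈ F, μ < dichromatic D := by
    intro μ hμ
    obtain ⟨_, ⟨D, hD, rfl⟩, hlt⟩ := (lt_isLUB_iff hsup).1 hμ
    exact ⟨D, hD, hlt⟩
  have hlim : ∀ μ < κ, Order.succ μ < κ := by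
    intro μ hμ
    obtain ⟨D, hD, hlt⟩ := hcof μ hμ
    exact (Order.succ_le_of_lt hlt).trans_lt (hval D hD)
  -- the index type
  obtain ⟨S, hS, hS'⟩ := Ordinal.exists_ord_cof_eq κ.ord.ToType
  rw [Ordinal.cof_toType] at hS'
  have hScard : #S = κ.ord.cof := by
    have := congrArg Ordinal.card hS'
    rwa [Ordinal.card_type, card_ord] at this
  have hSle : #S ≤ κ := by
    rw [hScard]
    exact Ordinal.cof_ord_le κ
  have hinit : ∀ t : S, #{r : S // r ≤ t} < κ := by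
    intro t
    have h1 : #(Set.Iio t) < #S := mk_Iio_lt t (by rw [hScard, hS'])
    have h2 : #{r : S // r ≤ t} ≤ #(Set.Iio t) + 1 := by
      have h3 : {r : S | r ≤ t} ⊆ insert t (Set.Iio t) := by
        intro r hr
        rcases lt_or_eq_of_le (show r ≤ t from hr) with h | h
        · exact Or.inr h
        · exact Or.inl h
      exact (mk_le_mk_of_subset h3).trans mk_insert_le
    exact h2.trans_lt (add_lt_of_lt hκ (h1.trans_le hSle) (one_lt_aleph0.trans_le hκ))
  let g : S → Cardinal.{u} := fun x =>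
    (Ordinal.typein (α := κ.ord.ToType) (· < ·) x.1).card
  have hg : ∀ t, g t < κ := by
    intro t
    rw [← lt_ord]
    exact Ordinal.typein_lt_self t.1
  have hgc : ∀ μ < κ, ∃ t, μ ≤ g t := by
    intro μ hμ
    have h1 : μ.ord < Ordinal.type (α := κ.ord.ToType) (· < ·) := by
      rw [Ordinal.type_toType]
      exact ord_lt_ord.2 hμ
    obtain ⟨x, hx⟩ := Ordinal.typein_surj (α := κ.ord.ToType) (· < ·) h1
    obtain ⟨y, hy, hxy⟩ := hS x
    refine ⟨⟨y, hy⟩, ?_⟩
    have h2 : Ordinal.typein (α := κ.ord.ToType) (· < ·) x ≤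
        Ordinal.typein (α := κ.ord.ToType) (· < ·) y := by
      rw [Ordinal.typein_le_typein]
      exact not_lt.2 hxy
    rw [hx] at h2
    calc μ = μ.ord.card := (card_ord μ).symm
      _ ≤ _ := Ordinal.card_le_card h2
  let Ξ : Type u := {D : V → V → Prop // IsOrientation G D ∧ dichromatic D < κ}
  let E : Ξ → V → V → Prop := fun D => D.1
  have hΞ : Nonempty Ξ := by
    obtain ⟨D, hD, _⟩ := hcof 0 (aleph0_pos.trans_le hκ)
    exact ⟨⟨D, hF D hD, hval D hD⟩⟩
  have hE : ∀ t, IsOrientation G (E t) := fun t => t.2.1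
  have hcol : ∀ t, ∃ μ < κ, Col (E t) Set.univ μ := fun t =>
    ⟨dichromatic (E t), t.2.2, (dichromatic_le_iff (hE t).irrefl).1 le_rfl⟩
  have huniv : ¬ IsSmall κ E (Set.univ : Set V) := by
    rintro ⟨l, hl, h⟩
    obtain ⟨D, hD, hlt⟩ := hcof l hl
    have h1 := (dichromatic_le_iff (hF D hD).irrefl).2 (h ⟨D, hF D hD, hval D hD⟩)
    exact absurd h1 (not_le.2 hlt)
  have hmany := fun (W : Set V) (hW : ¬ IsSmall κ E W) (σ : Cardinal.{u}) (hσ : σ < κ) =>
    many hκ hinit hE hno hcol hg hgc hW hσ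
  have hbig := fun (I : Type u) (N : I → Set V) (h1 : ∀ i, ¬ IsSmall κ E (N i))
    (h2 : Pairwise fun i j => Disjoint (N i) (N j)) =>
    no_big_family hκ hE hno hcol hg hgc h2 h1
  -- `κ` is regular
  have hreg : κ.IsRegular := by
    refine ⟨hκ, ?_⟩
    by_contra hlt
    rw [not_le, ← hScard] at hlt
    obtain ⟨ι, A, hι, hA, hdis⟩ := hmany _ huniv _ hlt
    exact absurd (hbig ι A (fun i => (hA i).2) hdis) (not_lt.2 hι.le)
  -- `κ` is uncountable
  have hunc : ℵ₀ < κ := by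
    refine lt_of_le_of_ne hκ fun heq => ?_
    have hsplit : ∀ W : {W : Set V // ¬ IsSmall κ E W}, ∃ X : Set V, X ⊆ W.1 ∧
        ¬ IsSmall κ E X ∧ ¬ IsSmall κ E (W.1 \ X) := by
      intro W
      obtain ⟨ι, A, hι, hA, hdis⟩ := hmany W.1 W.2 1 (one_lt_aleph0.trans_le hκ)
      obtain ⟨i, j, hij⟩ := (one_lt_iff_nontrivial.1 hι).exists_pair_ne
      refine ⟨A i, (hA i).1, (hA i).2, fun h => (hA j).2 (h.mono ?_)⟩
      intro v hv
      exact ⟨(hA j).1 hv, fun hv' => Set.disjoint_left.1 (hdis hij) hv' hv⟩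
    choose X hX1 hX2 hX3 using hsplit
    let seq : ℕ → {W : Set V // ¬ IsSmall κ E W} := fun n =>
      Nat.rec ⟨Set.univ, huniv⟩ (fun _ W => ⟨W.1 \ X W, hX3 W⟩) n
    have hseq : ∀ n, (seq (n + 1)).1 = (seq n).1 \ X (seq n) := fun n => rfl
    have hmono : ∀ m k, (seq (m + k)).1 ⊆ (seq m).1 := by
      intro m k
      induction k with
      | zero => exact subset_rfl
      | succ k ih =>
        rw [← Nat.add_assoc, hseq]
        exact sdiff_subset.trans ih
    have hlt : ∀ m n, m < n → Disjoint (X (seq m)) (X (seq n)) := by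
      intro m n hmn
      obtain ⟨k, rfl⟩ := Nat.exists_eq_add_of_lt hmn
      rw [Set.disjoint_left]
      intro v hv hv'
      have h1 : v ∈ (seq (m + 1)).1 := by
        have h2 := hmono (m + 1) k
        have e : m + 1 + k = m + k + 1 := by omega
        rw [e] at h2
        exact h2 (hX1 _ hv')
      rw [hseq] at h1
      exact h1.2 hv
    have h1 := hbig (ULift ℕ) (fun n => X (seq n.down)) (fun n => hX2 _) ?_
    · have h2 : #(ULift.{u} ℕ) = ℵ₀ := by simp
      rw [h2, heq] at h1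
      exact absurd h1 (not_lt.2 hSle)
    · intro m n hmn
      rcases lt_or_gt_of_ne (fun h => hmn (ULift.down_injective h) : m.down ≠ n.down) with h | h
      · exact hlt _ _ h
      · exact (hlt _ _ h).symm
  obtain ⟨l, hl, hbd⟩ := bounded hκ hinit hE hno hg hgc
  suffices hT : TightIdeal κ {W : Set V | IsSmall κ E W} from
    ⟨⟨hunc, hreg, hlim⟩, fun hwc => no_tight hwc hT, _, hT, l, hl,
      fun D h1 h2 W hW => hbd W hW ⟨D, h1, h2⟩⟩
  refine ⟨huniv, fun v => ?_, fun A B hAB hB => ?_, fun ι A hι hA => ?_,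
    fun ι A hA hdis => ?_, fun W hW σ hσ => ?_⟩
  · exact ⟨1, one_lt_aleph0.trans_le hκ,
      fun t => col_small (hE t).irrefl subsingleton_singleton⟩
  · exact IsSmall.mono hB hAB
  · exact small_iUnion hκ hE hno hι hA
  · exact (hbig ι A hA hdis).trans_le hSle
  · exact hmany W hW σ hσ

end Pool.Agent.Results.MP_6967ea_co.Attained
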